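import Pool.Agent.Helper97.PD.Defs
import Pool.Agent.Helper37.TW3.Defs

/-!
# Project PD, block E1: the case `ℓ = 2` (translation of project TW3)
-/

set_option autoImplicit false

namespace Pool.Agent.PDL

open VC IntermediateField NumberField IsDedekindDomain Pool.Agent.SC Pool.Agent.Helper91.Sect
open Filter Topology
open Pool.Agent.L (L0 MM)
open Pool.Agent.M (Moves OverPl inL0)

/-- `LN.Geo` with `n = 2` is `L.Geo` -/
theorem geo2_10 {k K0 E U : Type} [Field k] [Field K0] [Field E] [Field U] [Algebra k K0]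
    [Algebra k E] [Algebra E U] [Algebra K0 U] [Algebra k U] {h : K0} {r : U}
    (G : LN.Geo k K0 E U 2 h r) : L.Geo k K0 E U h r where
  algE := G.algE
  clE := G.clE
  ff := G.ff
  rsq := G.rpow
  rnot := by
    have h1 := G.rnot 1 one_pos one_lt_two
    rwa [pow_one] at h1
  cover := G.cover
  nonrat := G.nonrat
  normal := G.normal

/-- `LN.Act` with `n = 2` is `L.Act` -/
theorem act2_10 {k K0 E U : Type} [Field k] [Field K0] [Field E] [Field U] [Algebra k K0]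
    [Algebra k E] [Algebra E U] [Algebra K0 U] {r : U} {c : k}
    {Φ : (E ≃ₐ[k] E) →* (U ≃+* U)} (A : LN.Act (K0 := K0) 2 r c Φ) : L.Act (K0 := K0) r c Φ where
  const := A.const
  fixK := A.fixK
  tw := by
    obtain ⟨d₀, hd₀, htw⟩ := A.tw
    intro g d hd
    rcases sq_eq_sq_iff_eq_or_eq_neg.1 (hd.trans hd₀.symm) with rfl | rfl
    · exact htw g
    · rw [map_neg, map_neg, map_neg, mul_neg, neg_mul, htw g]
  cont := A.cont

theorem cond2_10 {k : Type} [Field k] [NumberField k] (c : k) : LN.cond 2 c = HG.cond c := rfl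

/-- `TW.Rare` implies `PD.Rare 2` -/
theorem rare2_10 {k : Type} [Field k] [NumberField k] {P P' : k → Prop} (h : TW.Rare P)
    (hP : ∀ c, c ≠ 0 → P' c → P c) : PD.Rare 2 P' := by
  intro ε hε
  filter_upwards [h ε hε] with X hX
  intro T hT hTc
  have h1 := hX T hT fun c hc => by
    obtain ⟨h1, h2, h3⟩ := hTc c hc
    exact ⟨h1, (cond2_10 c).symm.le.trans h2, hP c h1 h3⟩
  have e : Real.log X ^ (((2 - 1 : ℕ) : ℝ) - 1) = 1 := by
    norm_num
  rw [e, mul_one]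
  exact h1

/-- **BLOCK E1** (the statement `StmtLVL2` of `Helper97/PD/Defs2`). -/
theorem lVL2 : TW3.StmtLVLR → ∀ (k K0 E U : Type) [Field k] [NumberField k] [Field K0] [Field E]
    [Field U] [Algebra k K0] [Algebra k E] [Algebra E U] [Algebra K0 U] [Algebra k U]
    [IsScalarTower k E U] [IsScalarTower k K0 U] (h : K0) (r : U), LN.Geo k K0 E U 2 h r →
    ∀ R : Finset (Place E (L0 E K0 (U := U))), TW3.ManyRat (k := k) h r R →
    ∀ N' : IntermediateField E U, TW.Lvl E K0 N' → MM E K0 r ≤ N' →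
    (∀ a : U ≃ₐ[E] U, (∀ x ∈ L0 E K0 (U := U), a x = x) → ∀ x ∈ N', (a ^ 2) x = x) →
    PD.Rare 2 (fun c : k => ∃ Φ : (E ≃ₐ[k] E) →* (U ≃+* U), LN.Act (K0 := K0) 2 r c Φ ∧
      ∀ b₀ ∈ R, ∃ σ : E ≃ₐ[k] E, ¬ ∃ Q : Place E N', OverPl b₀ Q ∧ Moves (Φ σ) N' Q Q) := by
  intro hL k K0 E U _ _ _ _ _ _ _ _ _ _ _ _ h r G R hR N' hN hMN hex
  refine rare2_10 (hL k K0 E U h r (geo2_10 G) R hR N' hN hMN fun a ha x hx => ?_) ?_
  · have h1 := hex a ha x hx
    rwa [pow_two, AlgEquiv.mul_apply] at h1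
  · rintro c - ⟨Φ, hΦ, h1⟩
    exact ⟨Φ, act2_10 hΦ, h1⟩

end Pool.Agent.PDL
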